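import Pool.Agent.Q205.GC.GoldC

/-!
# The gcd recursion for Goldbach pairs: few composite `N` have a small loss `N - g_N`

For `K log K ≤ c log² X` at most `C X (log K / log X)²` composite integers `N` of an interval of length `X` have
`N - g_N ≤ K`.

Method: `N - 1 - g_N` is the end of a walk which starts at `0` and changes from `c` to `c + G - 1`,
`G = gcd (N - c, n)` at the even times `n` and `G = gcd (N + c, n + 2 c)` at the odd times.  All changes happen before the
time `4 (N - g_N)`, so the walk up to the time `4 K` is determined by `N` modulo a small modulus and, for each prime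
`p ≤ 6 K`, by a condition on `N` modulo `p`; the end of the walk gives two prime numbers `N - c`, `N + c`.  The large sieve
is applied to the `N` of each path, and the sum over all paths of the densities of their classes is at most `1`.
-/

set_option autoImplicit false

namespace Pool.Agent.Results.MP_b5e119_nt.CompositeSmallLoss

/-- Let `a` and `g` be the sequences of the problem.  There are constants `c`, `C` such that for all `A`, `X ≥ 2`, `K ≥ 2`
with `K log K ≤ c log² X` at most `C X (log K / log X)²` composite integers `N ≥ 3` with `A < N ≤ A + X` have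
`N - g N ≤ K`. -/
theorem result :
    ∃ c C : ℝ, 0 < c ∧ 0 < C ∧ ∀ (a : ℕ → ℕ → ℤ) (g : ℕ → ℕ),
      (∀ N : ℕ, 3 ≤ N → a N 1 = (N : ℤ) - 2) →
      (∀ N : ℕ, 3 ≤ N → ∀ n : ℕ, 2 ≤ n → a N n = a N (n - 1) -
        ((Int.gcd (a N (n - 1)) ((N : ℤ) - (-1) ^ n * ((N : ℤ) - n)) : ℕ) : ℤ)) →
      (∀ N : ℕ, 3 ≤ N → IsLeast {n : ℕ | 2 ≤ n ∧ a N n = 0} (g N)) →
      ∀ A X K : ℕ, 2 ≤ X → 2 ≤ K → (K : ℝ) * Real.log K ≤ c * Real.log X ^ 2 →
        (((Finset.Ioc A (A + X)).filter (fun N => 3 ≤ N ∧ ¬ N.Prime ∧ N ≤ g N + K)).card : ℝ) ≤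
          C * (X * (Real.log K / Real.log X) ^ 2) := by
  obtain ⟨c, C, hc, hC, h1⟩ := Pool.Agent.Q205.GC.gold_small
  refine ⟨c, C, hc, hC, fun a g ha1 ha2 hg => ?_⟩
  have hrec : Pool.Agent.Q205.GC.Rec a g := ⟨ha1, ha2, hg⟩
  exact fun A X K hX hK hKc => h1 a g hrec A X K hX hK hKc

end Pool.Agent.Results.MP_b5e119_nt.CompositeSmallLoss
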