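import Pool.Agent.Results.MP_b5e119_nt.CompositeSmallLoss
import Pool.Agent.Q138.PS.YN

/-!
# The loss of the gcd recursion for Goldbach pairs at the composite numbers next to `c n ^ j α ^ n`

For almost every real number `α > 1` the following holds for all algebraic `c > 0`, all integers `j`, all real `D` and all
`τ < 2`: (1) for `κ < 1` and all large `n` EVERY composite number `m` with `|m - c n ^ j α ^ n| ≤ D n ^ κ` has a loss
`m - g_m > (log m) ^ τ`; (2) for every `κ`, `ε > 0` and all large `N`, if `τ ≥ 0`, at most `N ^ (max 0 (κ - 1) + ε)` of the `n ≤ N` have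
a composite number `m` with `|m - c n ^ j α ^ n| ≤ D n ^ κ` and `m - g_m ≤ (log m) ^ τ`.

Input: the bound for the number of the composite numbers with a small loss in `CompositeSmallLoss`.
-/

set_option autoImplicit false

namespace Pool.Agent.Results.MP_b5e119_nt.LossNearPowers

open Finset Filter MeasureTheory Topology
open Pool.Agent.Q138.PS (ClosePow closeCount)

/-- the composite numbers `m` with a loss `m - g_m ≤ (log m) ^ τ` -/
def lossy (g : ℕ → ℕ) (τ : ℝ) : Set ℕ := {m | (3 ≤ m ∧ ¬ m.Prime) ∧ (m : ℝ) ≤ g m + Real.log m ^ τ}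

/-- **Theorem.** -/
theorem result (a : ℕ → ℕ → ℤ) (g : ℕ → ℕ) (ha : ∀ N : ℕ, 3 ≤ N → a N 1 = (N : ℤ) - 2)
    (ha' : ∀ N : ℕ, 3 ≤ N → ∀ n : ℕ, 2 ≤ n → a N n = a N (n - 1) -
      ((Int.gcd (a N (n - 1)) ((N : ℤ) - (-1) ^ n * ((N : ℤ) - n)) : ℕ) : ℤ))
    (hg : ∀ N : ℕ, 3 ≤ N → IsLeast {n : ℕ | 2 ≤ n ∧ a N n = 0} (g N)) :
    ∀ᵐ α : ℝ, 1 < α → ∀ c : ℝ, 0 < c → IsAlgebraic ℚ c → ∀ (j : ℤ) (D κ τ : ℝ), τ < 2 →
      (κ < 1 → ∀ᶠ n : ℕ in atTop, ∀ m : ℕ, 3 ≤ m → ¬ m.Prime → ClosePow α c j D κ n m →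
        (g m : ℝ) + Real.log m ^ τ < m) ∧
      (0 ≤ τ → ∀ ε : ℝ, 0 < ε → ∀ᶠ N : ℕ in atTop,
        (closeCount (lossy g τ) α c j D κ N : ℝ) ≤ (N : ℝ) ^ (max 0 (κ - 1) + ε)) := by
  obtain ⟨c₀, C₀, hc₀, hC₀, hs⟩ := Pool.Agent.Results.MP_b5e119_nt.CompositeSmallLoss.result
  have hs' : ∀ X K : ℕ, 2 ≤ X → 2 ≤ K → (K : ℝ) * Real.log K ≤ c₀ * Real.log X ^ 2 →
      (({m : ℕ | (3 ≤ m ∧ ¬ m.Prime) ∧ m ≤ g m + K ∧ m ≤ X}).ncard : ℝ) ≤ C₀ * (X * (Real.log K / Real.log X) ^ (2 : ℝ)) := by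
    intro X K hX hK hKX
    have h1 := hs a g ha ha' hg 0 X K hX hK hKX
    rw [show (2 : ℝ) = ((2 : ℕ) : ℝ) by norm_num, Real.rpow_natCast]
    refine le_trans ?_ h1
    rw [← Set.ncard_coe_finset]
    refine Nat.cast_le.2 (Set.ncard_le_ncard ?_ (Finset.finite_toSet _))
    rintro m ⟨⟨h2, h2'⟩, h3, h4⟩
    simp only [Finset.coe_filter, Finset.mem_Ioc, Set.mem_ofPred_eq]
    exact ⟨by omega, h2, h2', h3⟩
  have key := Pool.Agent.Q138.PS.loss_main (fun m => 3 ≤ m ∧ ¬ m.Prime) g (fun _ => 2) 2 (by norm_num) (by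
      intro τ h0 h3 ε hε
      obtain ⟨q, h4, h5⟩ := exists_rat_btwn h3
      exact ⟨q, h4, h5, by linarith⟩) (by
      intro τ h0 h3
      norm_num) (by
      intro τ h0 h3 δ hδ hδs
      exact Pool.Agent.Q138.PS.loss_count _ g 2 c₀ C₀ (by norm_num) hc₀ hs' τ h0 h3 δ hδs)
  filter_upwards [key] with α hα h1 c hc hca j D κ τ hτ
  obtain ⟨h2, h3⟩ := hα h1 c hc hca j D κ τ
  refine ⟨fun hκ => ?_, fun h0 ε hε => ?_⟩
  · filter_upwards [h2 hτ (by linarith)] with n hn m hm3 hmp hm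
    exact hn m hm ⟨hm3, hmp⟩
  · filter_upwards [h3 h0 hτ ε hε] with N hN
    rwa [show 1 + κ - 2 = κ - 1 by ring] at hN

end Pool.Agent.Results.MP_b5e119_nt.LossNearPowers
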