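import Pool.Agent.Q205.GC.Gold3

/-!
# The gcd recursion for Goldbach pairs: the mean of the loss `N - g_N` has at least the order `√X / log² X`

For composite `N` the first nontrivial gcd is the least prime factor of `N`, so that `N - g_N` is at
least this prime; the products of two primes of the order `√X` give the mean value.
-/

set_option autoImplicit false

namespace Pool.Agent.Results.MP_b5e119_nt.MeanLoss

theorem result :
    ∃ c : ℝ, 0 < c ∧ ∀ (a : ℕ → ℕ → ℤ) (g : ℕ → ℕ),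
      (∀ N : ℕ, 3 ≤ N → a N 1 = (N : ℤ) - 2) →
      (∀ N : ℕ, 3 ≤ N → ∀ n : ℕ, 2 ≤ n → a N n = a N (n - 1) -
        ((Int.gcd (a N (n - 1)) ((N : ℤ) - (-1) ^ n * ((N : ℤ) - n)) : ℕ) : ℤ)) →
      (∀ N : ℕ, 3 ≤ N → IsLeast {n : ℕ | 2 ≤ n ∧ a N n = 0} (g N)) →
      (∀ N : ℕ, 3 ≤ N → ¬ N.Prime → g N + N.minFac ≤ N) ∧
      (∀ X : ℕ, 3 ≤ X → c * (X * √X / Real.log X ^ 2) ≤ ∑ N ∈ Finset.Icc 3 X, ((N : ℝ) - g N)) := by
  obtain ⟨c, hc, h2⟩ := Pool.Agent.Q205.GC.gold_mean_sqrt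
  refine ⟨c, hc, fun a g ha1 ha2 hg => ?_⟩
  have hrec : Pool.Agent.Q205.GC.Rec a g := ⟨ha1, ha2, hg⟩
  exact ⟨fun N hN hp => Pool.Agent.Q205.GC.gold_first hrec hN hp, fun X hX => h2 a g hrec X hX⟩

end Pool.Agent.Results.MP_b5e119_nt.MeanLoss
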