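import Pool.Agent.Q205.GC.Gold2

/-!
# The gcd recursion for Goldbach pairs: few `N` have a loss `N - g_N` below `log² N`

In every interval of length `X` at most `C (X / log X + K X / log² X)` integers `N` have
`N - g_N ≤ K`.
-/

set_option autoImplicit false

namespace Pool.Agent.Results.MP_b5e119_nt.TypicalLoss

theorem result :
    ∃ C : ℝ, 0 < C ∧ ∀ (a : ℕ → ℕ → ℤ) (g : ℕ → ℕ),
      (∀ N : ℕ, 3 ≤ N → a N 1 = (N : ℤ) - 2) →
      (∀ N : ℕ, 3 ≤ N → ∀ n : ℕ, 2 ≤ n → a N n = a N (n - 1) -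
        ((Int.gcd (a N (n - 1)) ((N : ℤ) - (-1) ^ n * ((N : ℤ) - n)) : ℕ) : ℤ)) →
      (∀ N : ℕ, 3 ≤ N → IsLeast {n : ℕ | 2 ≤ n ∧ a N n = 0} (g N)) →
      ∀ A X K : ℕ, 2 ≤ X →
        (((Finset.Ioc A (A + X)).filter (fun N => 3 ≤ N ∧ N ≤ g N + K)).card : ℝ) ≤
          C * (X / Real.log X + K * (X / Real.log X ^ 2)) := by
  obtain ⟨C, hC, h1⟩ := Pool.Agent.Q205.GC.gold_count
  refine ⟨C, by linarith, fun a g ha1 ha2 hg => ?_⟩
  have hrec : Pool.Agent.Q205.GC.Rec a g := ⟨ha1, ha2, hg⟩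
  exact fun A X K hX => h1 a g hrec A X hX K

end Pool.Agent.Results.MP_b5e119_nt.TypicalLoss
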